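import Mathlib
import Pool.Agent.Run7.h772.Main2

open Set MeasureTheory
open scoped ContDiff

namespace Pool.Agent.Results.MP_1cc704_an.LengthVorticity

open Run7.h772

/-- `f` extends from `D` to a `C²` function on the plane whose first and second derivatives are
bounded by `M` and whose second derivative is Hölder continuous with exponent `α` and
constant `M`. -/
def HolderBound (D : Set ℂ) (f : ℂ → ℝ) (α M : ℝ) : Prop :=
  ∃ h : ℂ → ℝ, ContDiff ℝ 2 h ∧ (∀ x ∈ D, h x = f x) ∧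
    (∀ x, ‖fderiv ℝ h x‖ ≤ M) ∧ (∀ x, ‖fderiv ℝ (fderiv ℝ h) x‖ ≤ M) ∧
    ∀ x y, ‖fderiv ℝ (fderiv ℝ h) x - fderiv ℝ (fderiv ℝ h) y‖ ≤ M * ‖x - y‖ ^ α

/-- The hypotheses on the initial vorticity `w` and on the unit segment `s ↦ a + s e`: no critical
point of `w` on the segment, and turnover times of the contours through it with all moments. -/
structure GoodSegment (D : Set ℂ) (w : ℂ → ℝ) (a e : ℂ) : Prop where
  smooth : ContDiffOn ℝ ∞ w D
  unit : ‖e‖ = 1
  mem : ∀ s ∈ Icc (0 : ℝ) 1, a + s • e ∈ D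
  grad_ne : ∀ s ∈ Icc (0 : ℝ) 1, grad w (a + s • e) ≠ 0
  turnover : ∀ n : ℕ, ∃ C : ℝ, ∀ Y : ℝ, 1 ≤ Y →
    ∫⁻ s in {s | s ∈ Icc (0 : ℝ) 1 ∧ ¬ ClosedContour D w (a + s • e) Y},
      ENNReal.ofReal |fderiv ℝ w (a + s • e) e| ≤ ENNReal.ofReal (C / Y ^ n)

/-- An Euler flow on `D` with initial vorticity `w`, whose images of the segment stay in the disc
of radius `R`, whose velocity gradient is bounded by `K t` and whose vorticity has Hölder bound
`M t` at time `t`. -/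
structure Evolution (D : Set ℂ) (w : ℂ → ℝ) (a e : ℂ) (R α : ℝ) (u : ℝ → ℂ → ℂ)
    (p : ℝ → ℂ → ℝ) (X : ℝ → ℂ → ℂ) (K M : ℝ → ℝ) : Prop where
  euler : IsEulerFlow D u p
  flow : IsFlow D u X
  initial : ∀ x ∈ D, curl (u 0) x = w x
  bounded : ∀ t, 0 ≤ t → ∀ s ∈ Icc (0 : ℝ) 1, ‖X t (a + s • e)‖ ≤ R
  K_mono : Monotone K
  M_mono : Monotone M
  K_nonneg : ∀ t, 0 ≤ K t
  one_le_M : ∀ t, 1 ≤ M t
  velocity : ∀ t, 0 ≤ t → ∀ x ∈ D, ‖fderiv ℝ (u t) x‖ ≤ K t
  vorticity : ∀ t, 0 ≤ t → HolderBound D (curl (u t)) α (M t)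

theorem toInit {D : Set ℂ} (hD : IsOpen D) {w : ℂ → ℝ} {a e : ℂ} (h : GoodSegment D w a e) :
    InitData D w a e where
  hD := hD
  hw := h.smooth
  he := h.unit
  hseg := h.mem
  hn := h.grad_ne
  hc := h.turnover

theorem toEvol {D : Set ℂ} (hD : IsOpen D) {w : ℂ → ℝ} {a e : ℂ} {R α : ℝ} {u X : ℝ → ℂ → ℂ}
    {p : ℝ → ℂ → ℝ} {K M : ℝ → ℝ} (h : Evolution D w a e R α u p X K M) :
    Evol D w a e (max R 1) α u p X K M where
  hE := h.euler
  hX := h.flow
  hF := h.euler.flowData hD h.flow h.K_nonneg h.K_mono h.velocity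
  h0 := h.initial
  hR := fun t ht s hs => (h.bounded t ht s hs).trans (le_max_left _ _)
  hM1 := h.one_le_M
  hMm := h.M_mono
  hreg := h.vorticity

/-- A priori estimate of the length of a material segment by the velocity gradient and the
`C^{2,α}` size of the vorticity, and the resulting necessary condition for exponential growth. -/
theorem result (D : Set ℂ) (hD : IsOpen D) (w : ℂ → ℝ) (a e : ℂ) (hS : GoodSegment D w a e)
    (R α : ℝ) (hα : 0 < α) :
    (∀ η : ℝ, 0 < η → ∃ C : ℝ, ∀ (u : ℝ → ℂ → ℂ) (p : ℝ → ℂ → ℝ) (X : ℝ → ℂ → ℂ) (K M : ℝ → ℝ),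
      Evolution D w a e R α u p X K M → ∀ t, 0 ≤ t →
      eVariationOn (fun s : ℝ => X t (a + s • e)) (Icc 0 1)
        ≤ ENNReal.ofReal
          (C * (1 + t) * Real.exp ((3 + η * t) * K t) * M t ^ (8 * ⌈1 / α⌉₊ + 5))) ∧
    (∀ (u : ℝ → ℂ → ℂ) (p : ℝ → ℂ → ℝ) (X : ℝ → ℂ → ℂ) (K M : ℝ → ℝ),
      Evolution D w a e R α u p X K M → ∀ K0 : ℝ, (∀ t, K t ≤ K0) →
      ∀ c lam : ℝ, 0 < c →
      (∀ t, 0 ≤ t → ENNReal.ofReal (c * Real.exp (lam * t))
        ≤ eVariationOn (fun s : ℝ => X t (a + s • e)) (Icc 0 1)) →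
      ∀ μ : ℝ, (8 * ⌈1 / α⌉₊ + 5) * μ < lam →
        ∃ c' : ℝ, 0 < c' ∧ ∀ t, 0 ≤ t → c' * Real.exp (μ * t) ≤ M t) := by
  have hm : 1 ≤ (⌈1 / α⌉₊ : ℝ) * α := by
    have h1 : 1 / α ≤ ⌈1 / α⌉₊ := Nat.le_ceil _
    rwa [div_le_iff₀ hα] at h1
  have hpart1 : ∀ η : ℝ, 0 < η → ∃ C : ℝ, 0 ≤ C ∧ ∀ (u : ℝ → ℂ → ℂ) (p : ℝ → ℂ → ℝ)
      (X : ℝ → ℂ → ℂ) (K M : ℝ → ℝ),
      Evolution D w a e R α u p X K M → ∀ t, 0 ≤ t →
      eVariationOn (fun s : ℝ => X t (a + s • e)) (Icc 0 1)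
        ≤ ENNReal.ofReal
          (C * (1 + t) * Real.exp ((3 + η * t) * K t) * M t ^ (8 * ⌈1 / α⌉₊ + 5)) := by
    intro η hη
    obtain ⟨C, hC0, hC⟩ := length_bound (toInit hD hS) (R := max R 1) (le_max_right _ _) hα hm hη
    exact ⟨C, hC0, fun u p X K M hV t ht => hC u p X K M (toEvol hD hV) t ht⟩
  refine ⟨fun η hη => ?_, ?_⟩
  · obtain ⟨C, _, hC⟩ := hpart1 η hη
    exact ⟨C, hC⟩
  intro u p X K M hV K0 hK0 c lam hc hexp μ hμ
  set P : ℕ := 8 * ⌈1 / α⌉₊ + 5 with hP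
  have hPμ : (P : ℝ) * μ < lam := by rw [hP]; push_cast; exact hμ
  have hK00 : 0 ≤ K0 := (hV.K_nonneg 0).trans (hK0 0)
  set g : ℝ := lam - P * μ with hg
  have hg0 : 0 < g := by linarith
  set η : ℝ := g / (2 * (K0 + 1)) with hη
  have hη0 : 0 < η := by positivity
  obtain ⟨C, hC0, hC⟩ := hpart1 η hη0
  -- the resulting inequality for `M ^ P`
  have hmain : ∀ t, 0 ≤ t → c * Real.exp (lam * t)
      ≤ (C * (2 / g + 1) * Real.exp (3 * K0)) * Real.exp (g * t) * M t ^ P := by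
    intro t ht
    have h1 := (hexp t ht).trans (hC u p X K M hV t ht)
    have hM1 := hV.one_le_M t
    have hM0 : 0 ≤ M t := by linarith
    have hKt := hV.K_nonneg t
    have h2 : c * Real.exp (lam * t)
        ≤ C * (1 + t) * Real.exp ((3 + η * t) * K t) * M t ^ P := by
      refine (ENNReal.ofReal_le_ofReal_iff ?_).mp h1
      positivity
    refine h2.trans ?_
    have h3 : 1 + t ≤ (2 / g + 1) * Real.exp (g / 2 * t) := by
      have e1 : g / 2 * t + 1 ≤ Real.exp (g / 2 * t) := Real.add_one_le_exp _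
      have e2 : t ≤ 2 / g * Real.exp (g / 2 * t) := by
        rw [div_mul_eq_mul_div, le_div_iff₀ hg0]; linarith
      have e3 : 1 ≤ Real.exp (g / 2 * t) := Real.one_le_exp (by positivity)
      linarith
    have h4 : Real.exp ((3 + η * t) * K t) ≤ Real.exp (3 * K0) * Real.exp (g / 2 * t) := by
      rw [← Real.exp_add]
      apply Real.exp_le_exp.mpr
      have e1 : (3 + η * t) * K t ≤ (3 + η * t) * K0 := by
        have := hK0 t
        gcongr
      have e2 : η * K0 ≤ g / 2 := by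
        calc η * K0 = g / 2 * (K0 / (K0 + 1)) := by rw [hη]; field_simp
          _ ≤ g / 2 * 1 := by
              gcongr
              rw [div_le_one (by positivity)]; linarith
          _ = g / 2 := mul_one _
      have e3 : η * K0 * t ≤ g / 2 * t := by gcongr
      nlinarith
    calc C * (1 + t) * Real.exp ((3 + η * t) * K t) * M t ^ P
        ≤ C * ((2 / g + 1) * Real.exp (g / 2 * t))
          * (Real.exp (3 * K0) * Real.exp (g / 2 * t)) * M t ^ P := by gcongr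
      _ = (C * (2 / g + 1) * Real.exp (3 * K0))
          * (Real.exp (g / 2 * t) * Real.exp (g / 2 * t)) * M t ^ P := by ring
      _ = _ := by rw [← Real.exp_add]; congr 3; ring
  set Q : ℝ := C * (2 / g + 1) * Real.exp (3 * K0) + c with hQ
  have hQ0 : 0 < Q := by positivity
  have hcQ : c ≤ Q := by
    have : 0 ≤ C * (2 / g + 1) * Real.exp (3 * K0) := by positivity
    linarith
  refine ⟨c / Q, by positivity, fun t ht => ?_⟩
  have hM1 := hV.one_le_M t
  have hM0 : 0 < M t := by linarith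
  have h1 := hmain t ht
  have h2 : c * Real.exp (lam * t) ≤ Q * Real.exp (g * t) * M t ^ P := by
    refine h1.trans ?_
    gcongr
    linarith
  have h3 : c / Q * Real.exp (P * μ * t) ≤ M t ^ P := by
    have e1 : Real.exp (lam * t) = Real.exp (g * t) * Real.exp (P * μ * t) := by
      rw [← Real.exp_add]; congr 1; rw [hg]; ring
    rw [e1] at h2
    have e2 : 0 < Real.exp (g * t) := Real.exp_pos _
    rw [div_mul_eq_mul_div, div_le_iff₀ hQ0]
    have e3 : (c * Real.exp (P * μ * t)) * Real.exp (g * t)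
        ≤ (M t ^ P * Q) * Real.exp (g * t) := by linarith
    exact le_of_mul_le_mul_right e3 e2
  have hP1 : P ≠ 0 := by rw [hP]; omega
  have h4 : (c / Q * Real.exp (μ * t)) ^ P ≤ M t ^ P := by
    have e1 : (c / Q) ^ P ≤ c / Q := by
      have e2 : c / Q ≤ 1 := by rw [div_le_one hQ0]; exact hcQ
      calc (c / Q) ^ P ≤ (c / Q) ^ 1 := pow_le_pow_of_le_one (by positivity) e2 (by omega)
        _ = c / Q := pow_one _
    calc (c / Q * Real.exp (μ * t)) ^ P = (c / Q) ^ P * Real.exp (P * μ * t) := by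
          rw [mul_pow, ← Real.exp_nat_mul]; congr 2; ring
      _ ≤ c / Q * Real.exp (P * μ * t) := by gcongr
      _ ≤ M t ^ P := h3
  exact le_of_pow_le_pow_left₀ hP1 hM0.le h4

end Pool.Agent.Results.MP_1cc704_an.LengthVorticity
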