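import Mathlib
import Pool.Agent.Run7.h772.Seg3

open Set MeasureTheory
open scoped ContDiff

namespace Pool.Agent.Results.MP_1cc704_an.MorseSegment

open Run7.h772

/-- `f` extends from `D` to a `C²` function on the plane whose first and second derivatives are
bounded by `M` and whose second derivative is Hölder continuous with exponent `α` and
constant `M`. -/
def HolderBound (D : Set ℂ) (f : ℂ → ℝ) (α M : ℝ) : Prop :=
  ∃ h : ℂ → ℝ, ContDiff ℝ 2 h ∧ (∀ x ∈ D, h x = f x) ∧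
    (∀ x, ‖fderiv ℝ h x‖ ≤ M) ∧ (∀ x, ‖fderiv ℝ (fderiv ℝ h) x‖ ≤ M) ∧
    ∀ x y, ‖fderiv ℝ (fderiv ℝ h) x - fderiv ℝ (fderiv ℝ h) y‖ ≤ M * ‖x - y‖ ^ α

/-- `K` is a compact subset of `D`, made of pieces of level sets of the smooth function `w` which
are isolated in these level sets, and all critical points of `w` in `K` are nondegenerate. -/
structure MorseContours (D : Set ℂ) (w : ℂ → ℝ) (K : Set ℂ) : Prop where
  smooth : ContDiffOn ℝ ∞ w D
  compact : IsCompact K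
  isolated : ∃ V : Set ℂ, IsOpen V ∧ K ⊆ V ∧ V ⊆ D ∧ ∀ x ∈ K, ∀ y ∈ V, w y = w x → y ∈ K
  nondegenerate : ∀ x ∈ K, grad w x = 0 → ∀ v, fderiv ℝ (fderiv ℝ w) x v = 0 → v = 0

/-- An Euler flow on `D` with initial vorticity `w`, whose images of the segment stay in the disc
of radius `R`, whose velocity gradient is bounded by `K t` and whose vorticity has Hölder bound
`M t` at time `t`. -/
structure Evolution (D : Set ℂ) (w : ℂ → ℝ) (a e : ℂ) (R α : ℝ) (u : ℝ → ℂ → ℂ)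
    (p : ℝ → ℂ → ℝ) (X : ℝ → ℂ → ℂ) (K M : ℝ → ℝ) : Prop where
  euler : IsEulerFlow D u p
  flow : IsFlow D u X
  initial : ∀ x ∈ D, curl (u 0) x = w x
  bounded : ∀ t, 0 ≤ t → ∀ s ∈ Icc (0 : ℝ) 1, ‖X t (a + s • e)‖ ≤ R
  K_mono : Monotone K
  M_mono : Monotone M
  K_nonneg : ∀ t, 0 ≤ K t
  one_le_M : ∀ t, 1 ≤ M t
  velocity : ∀ t, 0 ≤ t → ∀ x ∈ D, ‖fderiv ℝ (u t) x‖ ≤ K t
  vorticity : ∀ t, 0 ≤ t → HolderBound D (curl (u t)) α (M t)

theorem toEvol {D : Set ℂ} (hD : IsOpen D) {w : ℂ → ℝ} {a e : ℂ} {R α : ℝ} {u X : ℝ → ℂ → ℂ}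
    {p : ℝ → ℂ → ℝ} {K M : ℝ → ℝ} (h : Evolution D w a e R α u p X K M) :
    Evol D w a e (max R 1) α u p X K M where
  hE := h.euler
  hX := h.flow
  hF := h.euler.flowData hD h.flow h.K_nonneg h.K_mono h.velocity
  h0 := h.initial
  hR := fun t ht s hs => (h.bounded t ht s hs).trans (le_max_left _ _)
  hM1 := h.one_le_M
  hMm := h.M_mono
  hreg := h.vorticity

theorem toMorse {D : Set ℂ} (hD : IsOpen D) {w : ℂ → ℝ} {K : Set ℂ} (h : MorseContours D w K) :
    MorseData D w K where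
  hD := hD
  hw := h.smooth
  hK0 := h.compact
  hKD := by
    obtain ⟨V, _, hKV, hVD, _⟩ := h.isolated
    exact hKV.trans hVD
  sat := h.isolated
  nd := h.nondegenerate

/-- A priori estimate of the length of an arbitrary material segment when the initial vorticity
is Morse near the contours through it, its polynomial form, and the resulting necessary condition
for exponential growth. -/
theorem result (D : Set ℂ) (hD : IsOpen D) (w : ℂ → ℝ) (Kc : Set ℂ) (hK : MorseContours D w Kc)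
    (a e : ℂ) (he : ‖e‖ = 1) (hseg : ∀ s ∈ Icc (0 : ℝ) 1, a + s • e ∈ Kc)
    (R α : ℝ) (hα : 0 < α) :
    (∀ η : ℝ, 0 < η → ∃ C : ℝ, ∀ (u : ℝ → ℂ → ℂ) (p : ℝ → ℂ → ℝ) (X : ℝ → ℂ → ℂ) (K M : ℝ → ℝ),
      Evolution D w a e R α u p X K M → ∀ t, 0 ≤ t →
      eVariationOn (fun s : ℝ => X t (a + s • e)) (Icc 0 1)
        ≤ ENNReal.ofReal
          (C * (1 + t) * Real.exp ((3 + η * t) * K t) * M t ^ (4 * ⌈1 / α⌉₊ + 4))) ∧
    ({s : ℝ | s ∈ Icc (0 : ℝ) 1 ∧ fderiv ℝ w (a + s • e) e = 0}.Finite →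
      ∃ C : ℝ, ∀ (u : ℝ → ℂ → ℂ) (p : ℝ → ℂ → ℝ) (X : ℝ → ℂ → ℂ) (K M : ℝ → ℝ),
      Evolution D w a e R α u p X K M → ∀ t, 0 ≤ t →
      eVariationOn (fun s : ℝ => X t (a + s • e)) (Icc 0 1)
        ≤ ENNReal.ofReal (C * (1 + t) * (1 + t * K t) ^ (4 * ⌈1 / α⌉₊ + 5)
          * Real.exp (3 * K t) * M t ^ (4 * ⌈1 / α⌉₊ + 4))) ∧
    (∀ (u : ℝ → ℂ → ℂ) (p : ℝ → ℂ → ℝ) (X : ℝ → ℂ → ℂ) (K M : ℝ → ℝ),
      Evolution D w a e R α u p X K M → ∀ K0 : ℝ, (∀ t, K t ≤ K0) →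
      ∀ c lam : ℝ, 0 < c →
      (∀ t, 0 ≤ t → ENNReal.ofReal (c * Real.exp (lam * t))
        ≤ eVariationOn (fun s : ℝ => X t (a + s • e)) (Icc 0 1)) →
      ∀ μ : ℝ, (4 * ⌈1 / α⌉₊ + 4) * μ < lam →
        ∃ c' : ℝ, 0 < c' ∧ ∀ t, 0 ≤ t → c' * Real.exp (μ * t) ≤ M t) := by
  have hm : 1 ≤ (⌈1 / α⌉₊ : ℝ) * α := by
    have h1 : 1 / α ≤ ⌈1 / α⌉₊ := Nat.le_ceil _
    rwa [div_le_iff₀ hα] at h1
  have hMD := toMorse hD hK
  have hS : Seg D w a e := ⟨hD, hK.smooth, he, fun s hs => hMD.hKD (hseg s hs)⟩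
  have hpart1 : ∀ η : ℝ, 0 < η → ∃ C : ℝ, 0 ≤ C ∧ ∀ (u : ℝ → ℂ → ℂ) (p : ℝ → ℂ → ℝ)
      (X : ℝ → ℂ → ℂ) (K M : ℝ → ℝ),
      Evolution D w a e R α u p X K M → ∀ t, 0 ≤ t →
      eVariationOn (fun s : ℝ => X t (a + s • e)) (Icc 0 1)
        ≤ ENNReal.ofReal
          (C * (1 + t) * Real.exp ((3 + η * t) * K t) * M t ^ (4 * ⌈1 / α⌉₊ + 4)) := by
    intro η hη
    obtain ⟨C, hC0, hC⟩ := hS.morse_bound hMD hseg (R := max R 1) (le_max_right _ _) hα hm hη
    exact ⟨C, hC0, fun u p X K M hV t ht => hC u p X K M (toEvol hD hV) t ht⟩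
  refine ⟨fun η hη => ?_, fun hz => ?_, ?_⟩
  · obtain ⟨C, _, hC⟩ := hpart1 η hη
    exact ⟨C, hC⟩
  · obtain ⟨C, _, hC⟩ := hS.morse_bound_poly hMD hseg (R := max R 1) (le_max_right _ _) hα hm hz
    exact ⟨C, fun u p X K M hV t ht => hC u p X K M (toEvol hD hV) t ht⟩
  intro u p X K M hV K0 hK0 c lam hc hexp μ hμ
  set P : ℕ := 4 * ⌈1 / α⌉₊ + 4 with hP
  have hPμ : (P : ℝ) * μ < lam := by rw [hP]; push_cast; exact hμ
  have hK00 : 0 ≤ K0 := (hV.K_nonneg 0).trans (hK0 0)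
  set g : ℝ := lam - P * μ with hg
  have hg0 : 0 < g := by linarith
  set η : ℝ := g / (2 * (K0 + 1)) with hη
  have hη0 : 0 < η := by positivity
  obtain ⟨C, hC0, hC⟩ := hpart1 η hη0
  -- the resulting inequality for `M ^ P`
  have hmain : ∀ t, 0 ≤ t → c * Real.exp (lam * t)
      ≤ (C * (2 / g + 1) * Real.exp (3 * K0)) * Real.exp (g * t) * M t ^ P := by
    intro t ht
    have h1 := (hexp t ht).trans (hC u p X K M hV t ht)
    have hM1 := hV.one_le_M t
    have hM0 : 0 ≤ M t := by linarith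
    have hKt := hV.K_nonneg t
    have h2 : c * Real.exp (lam * t)
        ≤ C * (1 + t) * Real.exp ((3 + η * t) * K t) * M t ^ P := by
      refine (ENNReal.ofReal_le_ofReal_iff ?_).mp h1
      positivity
    refine h2.trans ?_
    have h3 : 1 + t ≤ (2 / g + 1) * Real.exp (g / 2 * t) := by
      have e1 : g / 2 * t + 1 ≤ Real.exp (g / 2 * t) := Real.add_one_le_exp _
      have e2 : t ≤ 2 / g * Real.exp (g / 2 * t) := by
        rw [div_mul_eq_mul_div, le_div_iff₀ hg0]; linarith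
      have e3 : 1 ≤ Real.exp (g / 2 * t) := Real.one_le_exp (by positivity)
      linarith
    have h4 : Real.exp ((3 + η * t) * K t) ≤ Real.exp (3 * K0) * Real.exp (g / 2 * t) := by
      rw [← Real.exp_add]
      apply Real.exp_le_exp.mpr
      have e1 : (3 + η * t) * K t ≤ (3 + η * t) * K0 := by
        have := hK0 t
        gcongr
      have e2 : η * K0 ≤ g / 2 := by
        calc η * K0 = g / 2 * (K0 / (K0 + 1)) := by rw [hη]; field_simp
          _ ≤ g / 2 * 1 := by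
              gcongr
              rw [div_le_one (by positivity)]; linarith
          _ = g / 2 := mul_one _
      have e3 : η * K0 * t ≤ g / 2 * t := by gcongr
      nlinarith
    calc C * (1 + t) * Real.exp ((3 + η * t) * K t) * M t ^ P
        ≤ C * ((2 / g + 1) * Real.exp (g / 2 * t))
          * (Real.exp (3 * K0) * Real.exp (g / 2 * t)) * M t ^ P := by gcongr
      _ = (C * (2 / g + 1) * Real.exp (3 * K0))
          * (Real.exp (g / 2 * t) * Real.exp (g / 2 * t)) * M t ^ P := by ring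
      _ = _ := by rw [← Real.exp_add]; congr 3; ring
  set Q : ℝ := C * (2 / g + 1) * Real.exp (3 * K0) + c with hQ
  have hQ0 : 0 < Q := by positivity
  have hcQ : c ≤ Q := by
    have : 0 ≤ C * (2 / g + 1) * Real.exp (3 * K0) := by positivity
    linarith
  refine ⟨c / Q, by positivity, fun t ht => ?_⟩
  have hM1 := hV.one_le_M t
  have hM0 : 0 < M t := by linarith
  have h1 := hmain t ht
  have h2 : c * Real.exp (lam * t) ≤ Q * Real.exp (g * t) * M t ^ P := by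
    refine h1.trans ?_
    gcongr
    linarith
  have h3 : c / Q * Real.exp (P * μ * t) ≤ M t ^ P := by
    have e1 : Real.exp (lam * t) = Real.exp (g * t) * Real.exp (P * μ * t) := by
      rw [← Real.exp_add]; congr 1; rw [hg]; ring
    rw [e1] at h2
    have e2 : 0 < Real.exp (g * t) := Real.exp_pos _
    rw [div_mul_eq_mul_div, div_le_iff₀ hQ0]
    have e3 : (c * Real.exp (P * μ * t)) * Real.exp (g * t)
        ≤ (M t ^ P * Q) * Real.exp (g * t) := by linarith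
    exact le_of_mul_le_mul_right e3 e2
  have hP1 : P ≠ 0 := by rw [hP]; omega
  have h4 : (c / Q * Real.exp (μ * t)) ^ P ≤ M t ^ P := by
    have e1 : (c / Q) ^ P ≤ c / Q := by
      have e2 : c / Q ≤ 1 := by rw [div_le_one hQ0]; exact hcQ
      calc (c / Q) ^ P ≤ (c / Q) ^ 1 := pow_le_pow_of_le_one (by positivity) e2 (by omega)
        _ = c / Q := pow_one _
    calc (c / Q * Real.exp (μ * t)) ^ P = (c / Q) ^ P * Real.exp (P * μ * t) := by
          rw [mul_pow, ← Real.exp_nat_mul]; congr 2; ring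
      _ ≤ c / Q * Real.exp (P * μ * t) := by gcongr
      _ ≤ M t ^ P := h3
  exact le_of_pow_le_pow_left₀ hP1 hM0.le h4

end Pool.Agent.Results.MP_1cc704_an.MorseSegment
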