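import Mathlib
import Pool.Agent.Run7.h772.Sard3

open Set MeasureTheory
open scoped ContDiff

namespace Pool.Agent.Results.MP_1cc704_an.SardStretch

open Run7.h772

/-- `f` extends from `D` to a `C²` function on the plane whose first and second derivatives are
bounded by `M` and whose second derivative is Hölder continuous with exponent `α` and
constant `M`. -/
def HolderBound (D : Set ℂ) (f : ℂ → ℝ) (α M : ℝ) : Prop :=
  ∃ h : ℂ → ℝ, ContDiff ℝ 2 h ∧ (∀ x ∈ D, h x = f x) ∧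
    (∀ x, ‖fderiv ℝ h x‖ ≤ M) ∧ (∀ x, ‖fderiv ℝ (fderiv ℝ h) x‖ ≤ M) ∧
    ∀ x y, ‖fderiv ℝ (fderiv ℝ h) x - fderiv ℝ (fderiv ℝ h) y‖ ≤ M * ‖x - y‖ ^ α

/-- An Euler flow on `D` with initial vorticity `w`, whose images of the segment stay in the disc
of radius `R`, whose velocity gradient is bounded by `K t` and whose vorticity has Hölder bound
`M t` at time `t`. -/
structure Evolution (D : Set ℂ) (w : ℂ → ℝ) (a e : ℂ) (R α : ℝ) (u : ℝ → ℂ → ℂ)
    (p : ℝ → ℂ → ℝ) (X : ℝ → ℂ → ℂ) (K M : ℝ → ℝ) : Prop where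
  euler : IsEulerFlow D u p
  flow : IsFlow D u X
  initial : ∀ x ∈ D, curl (u 0) x = w x
  bounded : ∀ t, 0 ≤ t → ∀ s ∈ Icc (0 : ℝ) 1, ‖X t (a + s • e)‖ ≤ R
  K_mono : Monotone K
  M_mono : Monotone M
  K_nonneg : ∀ t, 0 ≤ K t
  one_le_M : ∀ t, 1 ≤ M t
  velocity : ∀ t, 0 ≤ t → ∀ x ∈ D, ‖fderiv ℝ (u t) x‖ ≤ K t
  vorticity : ∀ t, 0 ≤ t → HolderBound D (curl (u t)) α (M t)

theorem toEvol {D : Set ℂ} (hD : IsOpen D) {w : ℂ → ℝ} {a e : ℂ} {R α : ℝ} {u X : ℝ → ℂ → ℂ}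
    {p : ℝ → ℂ → ℝ} {K M : ℝ → ℝ} (h : Evolution D w a e R α u p X K M) :
    Evol D w a e (max R 1) α u p X K M where
  hE := h.euler
  hX := h.flow
  hF := h.euler.flowData hD h.flow h.K_nonneg h.K_mono h.velocity
  h0 := h.initial
  hR := fun t ht s hs => (h.bounded t ht s hs).trans (le_max_left _ _)
  hM1 := h.one_le_M
  hMm := h.M_mono
  hreg := h.vorticity

/-- Without any hypothesis on the contours: an improvement of the Gronwall exponent, a bound of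
the exponential rate of stretching at almost every point of the segment by the growth rate of the
vorticity, and the resulting necessary condition for fast exponential growth of the length. -/
theorem result (D : Set ℂ) (hD : IsOpen D) (w : ℂ → ℝ) (hw : ContDiffOn ℝ ∞ w D)
    (a e : ℂ) (he : ‖e‖ = 1) (hseg : ∀ s ∈ Icc (0 : ℝ) 1, a + s • e ∈ D)
    (hn : ∀ s ∈ Icc (0 : ℝ) 1, grad w (a + s • e) ≠ 0) (R α : ℝ) (hα : 0 < α) :
    (∀ η : ℝ, 0 < η → ∃ C : ℝ, ∀ (u : ℝ → ℂ → ℂ) (p : ℝ → ℂ → ℝ) (X : ℝ → ℂ → ℂ) (K M : ℝ → ℝ),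
      Evolution D w a e R α u p X K M → ∀ t, 0 ≤ t →
      eVariationOn (fun s : ℝ => X t (a + s • e)) (Icc 0 1)
        ≤ ENNReal.ofReal (C * (1 + t)
          * Real.exp (3 * K t + ((2 + α) / (2 + 2 * α) + η) * (t * K t)) * M t ^ 2)) ∧
    (∀ (u : ℝ → ℂ → ℂ) (p : ℝ → ℂ → ℝ) (X : ℝ → ℂ → ℂ) (K M : ℝ → ℝ),
      Evolution D w a e R α u p X K M → ∀ K0 : ℝ, (∀ t, K t ≤ K0) →
      ∀ C0 μ : ℝ, 0 ≤ μ → (∀ t, 0 ≤ t → M t ≤ C0 * Real.exp (μ * t)) →
      ∀ lam : ℝ, (3 + 2 / α) * μ < lam →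
      ∀ᵐ s ∂(volume.restrict (Icc (0 : ℝ) 1)), ∃ C : ℝ, ∀ t, 0 ≤ t →
        ‖deriv (fun σ : ℝ => X t (a + σ • e)) s‖ ≤ C * Real.exp (lam * t)) ∧
    (∀ (u : ℝ → ℂ → ℂ) (p : ℝ → ℂ → ℝ) (X : ℝ → ℂ → ℂ) (K M : ℝ → ℝ),
      Evolution D w a e R α u p X K M → ∀ K0 : ℝ, (∀ t, K t ≤ K0) →
      ∀ c lam : ℝ, 0 < c →
      (∀ t, 0 ≤ t → ENNReal.ofReal (c * Real.exp (lam * t))
        ≤ eVariationOn (fun s : ℝ => X t (a + s • e)) (Icc 0 1)) →
      ∀ μ : ℝ, (2 + α) / (2 + 2 * α) * K0 + 2 * μ < lam →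
        ∃ c' : ℝ, 0 < c' ∧ ∀ t, 0 ≤ t → c' * Real.exp (μ * t) ≤ M t) := by
  have hS : Seg D w a e := ⟨hD, hw, he, hseg⟩
  set θ : ℝ := α / (1 + α) with hθ
  have hθ0 : 0 < θ := by positivity
  have hρ : (2 + α) / (2 + 2 * α) = 1 - θ / 2 := by rw [hθ]; field_simp; ring
  have hpart1 : ∀ η : ℝ, 0 < η → ∃ C : ℝ, 0 ≤ C ∧ ∀ (u : ℝ → ℂ → ℂ) (p : ℝ → ℂ → ℝ)
      (X : ℝ → ℂ → ℂ) (K M : ℝ → ℝ),
      Evolution D w a e R α u p X K M → ∀ t, 0 ≤ t →
      eVariationOn (fun s : ℝ => X t (a + s • e)) (Icc 0 1)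
        ≤ ENNReal.ofReal (C * (1 + t)
          * Real.exp (3 * K t + ((2 + α) / (2 + 2 * α) + η) * (t * K t)) * M t ^ 2) := by
    intro η hη
    obtain ⟨C, hC0, hC⟩ := hS.sard_length hn (R := max R 1) (le_max_right _ _) hα
      (η := min η θ) (by positivity) (min_le_right _ _)
    refine ⟨C, hC0, fun u p X K M hV t ht => (hC u p X K M (toEvol hD hV) t ht).trans ?_⟩
    have hKt := hV.K_nonneg t
    refine ENNReal.ofReal_le_ofReal ?_
    rw [hρ, mul_comm t (K t)]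
    have h1 : (1 - θ / 2 + min η θ) * (K t * t) ≤ (1 - θ / 2 + η) * (K t * t) := by
      have := min_le_left η θ
      gcongr
    gcongr
  refine ⟨fun η hη => ?_, ?_, ?_⟩
  · obtain ⟨C, _, hC⟩ := hpart1 η hη
    exact ⟨C, hC⟩
  · intro u p X K M hV K0 hK0 C0 μ hμ hM lam hlam
    filter_upwards [hS.ae_exponent hn (R := max R 1) (le_max_right _ _) hα (toEvol hD hV) hK0 hμ
      hM hlam, ae_restrict_mem measurableSet_Icc] with s hs hsI
    obtain ⟨C, hC⟩ := hs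
    refine ⟨C, fun t ht => ?_⟩
    have h2 : HasDerivAt (fun s : ℝ => a + s • e) e s := by
      simpa using ((hasDerivAt_id s).smul_const e).const_add a
    have h3 := HasFDerivAt.comp_hasDerivAt (f := fun s : ℝ => a + s • e) s
      ((toEvol hD hV).hF.hasFDerivAt (hseg s hsI) ht) h2
    have h4 : deriv (fun σ : ℝ => X t (a + σ • e)) s = fderiv ℝ (X t) (a + s • e) e := h3.deriv
    rw [h4]
    exact hC t ht
  intro u p X K M hV K0 hK0 c lam hc hexp μ hμ
  have hK00 : 0 ≤ K0 := (hV.K_nonneg 0).trans (hK0 0)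
  set ρ : ℝ := (2 + α) / (2 + 2 * α) with hρd
  have hρ0 : 0 ≤ ρ := by positivity
  set g : ℝ := lam - (ρ * K0 + 2 * μ) with hg
  have hg0 : 0 < g := by linarith
  set η : ℝ := g / (2 * (K0 + 1)) with hη
  have hη0 : 0 < η := by positivity
  obtain ⟨C, hC0, hC⟩ := hpart1 η hη0
  have hmain : ∀ t, 0 ≤ t → c * Real.exp (lam * t)
      ≤ (C * (2 / g + 1) * Real.exp (3 * K0)) * Real.exp ((ρ * K0 + g) * t) * M t ^ 2 := by
    intro t ht
    have h1 := (hexp t ht).trans (hC u p X K M hV t ht)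
    have hM1 := hV.one_le_M t
    have hM0 : 0 ≤ M t := by linarith
    have hKt := hV.K_nonneg t
    have h2 : c * Real.exp (lam * t)
        ≤ C * (1 + t) * Real.exp (3 * K t + (ρ + η) * (t * K t)) * M t ^ 2 := by
      refine (ENNReal.ofReal_le_ofReal_iff ?_).mp h1
      positivity
    refine h2.trans ?_
    have h3 : 1 + t ≤ (2 / g + 1) * Real.exp (g / 2 * t) := by
      have e1 : g / 2 * t + 1 ≤ Real.exp (g / 2 * t) := Real.add_one_le_exp _
      have e2 : t ≤ 2 / g * Real.exp (g / 2 * t) := by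
        rw [div_mul_eq_mul_div, le_div_iff₀ hg0]; linarith
      have e3 : 1 ≤ Real.exp (g / 2 * t) := Real.one_le_exp (by positivity)
      linarith
    have h4 : Real.exp (3 * K t + (ρ + η) * (t * K t))
        ≤ Real.exp (3 * K0) * Real.exp ((ρ * K0 + g / 2) * t) := by
      rw [← Real.exp_add]
      apply Real.exp_le_exp.mpr
      have e0 := hK0 t
      have e1 : (ρ + η) * (t * K t) ≤ (ρ + η) * (t * K0) := by gcongr
      have e2 : η * K0 ≤ g / 2 := by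
        calc η * K0 = g / 2 * (K0 / (K0 + 1)) := by rw [hη]; field_simp
          _ ≤ g / 2 * 1 := by
              gcongr
              rw [div_le_one (by positivity)]; linarith
          _ = g / 2 := mul_one _
      have e3 : η * K0 * t ≤ g / 2 * t := by gcongr
      nlinarith
    calc C * (1 + t) * Real.exp (3 * K t + (ρ + η) * (t * K t)) * M t ^ 2
        ≤ C * ((2 / g + 1) * Real.exp (g / 2 * t))
          * (Real.exp (3 * K0) * Real.exp ((ρ * K0 + g / 2) * t)) * M t ^ 2 := by gcongr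
      _ = (C * (2 / g + 1) * Real.exp (3 * K0))
          * (Real.exp (g / 2 * t) * Real.exp ((ρ * K0 + g / 2) * t)) * M t ^ 2 := by ring
      _ = _ := by rw [← Real.exp_add]; congr 3; ring
  set Q : ℝ := C * (2 / g + 1) * Real.exp (3 * K0) + c with hQ
  have hQ0 : 0 < Q := by positivity
  have hcQ : c ≤ Q := by
    have : 0 ≤ C * (2 / g + 1) * Real.exp (3 * K0) := by positivity
    linarith
  refine ⟨c / Q, by positivity, fun t ht => ?_⟩
  have hM1 := hV.one_le_M t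
  have hM0 : 0 < M t := by linarith
  have h1 := hmain t ht
  have h2 : c * Real.exp (lam * t) ≤ Q * Real.exp ((ρ * K0 + g) * t) * M t ^ 2 := by
    refine h1.trans ?_
    gcongr
    linarith
  have h3 : c / Q * Real.exp (2 * μ * t) ≤ M t ^ 2 := by
    have e1 : Real.exp (lam * t) = Real.exp ((ρ * K0 + g) * t) * Real.exp (2 * μ * t) := by
      rw [← Real.exp_add]; congr 1; rw [hg]; ring
    rw [e1] at h2
    have e2 : 0 < Real.exp ((ρ * K0 + g) * t) := Real.exp_pos _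
    rw [div_mul_eq_mul_div, div_le_iff₀ hQ0]
    have e3 : (c * Real.exp (2 * μ * t)) * Real.exp ((ρ * K0 + g) * t)
        ≤ (M t ^ 2 * Q) * Real.exp ((ρ * K0 + g) * t) := by linarith
    exact le_of_mul_le_mul_right e3 e2
  have h4 : (c / Q * Real.exp (μ * t)) ^ 2 ≤ M t ^ 2 := by
    have e1 : (c / Q) ^ 2 ≤ c / Q := by
      have e2 : c / Q ≤ 1 := by rw [div_le_one hQ0]; exact hcQ
      calc (c / Q) ^ 2 ≤ (c / Q) ^ 1 := pow_le_pow_of_le_one (by positivity) e2 (by norm_num)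
        _ = c / Q := pow_one _
    calc (c / Q * Real.exp (μ * t)) ^ 2 = (c / Q) ^ 2 * Real.exp (2 * μ * t) := by
          rw [mul_pow, ← Real.exp_nat_mul]; congr 2; push_cast; ring
      _ ≤ c / Q * Real.exp (2 * μ * t) := by gcongr
      _ ≤ M t ^ 2 := h3
  exact le_of_pow_le_pow_left₀ (by norm_num) hM0.le h4

end Pool.Agent.Results.MP_1cc704_an.SardStretch
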